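import Pool.Agent.W886.CS.Stm0

/-!
# CS-BIT: the digits of the last number can be found from the first to the last one
-/

set_option autoImplicit false

namespace Pool.Agent.W753.CS

open Pool.Agent.W886.CS

theorem bw_length (m v : ℕ) : (bw m v).length = m := by
  unfold bw; simp

theorem bw_getElem? (m v j : ℕ) (hj : j < m + 1) :
    (bw (m + 1) v)[j]? = some (v.testBit (m - j)) := by
  unfold bw
  rw [List.getElem?_ofFn]
  simp [hj]

theorem bw_surj (m : ℕ) (w : List Bool) (hw : w.length = m + 1) :
    ∃ v < 2 ^ (m + 1), bw (m + 1) v = w := by
  let f : Fin (m + 1) → Bool := fun i => w.getD (m - i.val) false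
  refine ⟨Nat.ofBits f, Nat.ofBits_lt_two_pow f, ?_⟩
  apply List.ext_getElem?
  intro j
  by_cases hj : j < m + 1
  · rw [bw_getElem? _ _ _ hj, Nat.testBit_ofBits_lt f (m - j) (by omega)]
    simp only [f]
    rw [show m - (m - j) = j by omega, List.getD_eq_getElem _ _ (by omega),
      List.getElem?_eq_getElem (by omega)]
  · rw [List.getElem?_eq_none (by rw [bw_length]; omega), List.getElem?_eq_none (by omega)]

theorem task : S_BIT := by
  rintro A m P ⟨v, hv, hA, hlast, hP⟩
  refine ⟨bw (m + 1) v, bw_length _ _, ?_, ?_⟩
  · intro j hj
    constructor
    · rintro ⟨w, hw, hpre, hAw⟩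
      obtain ⟨v2, hv2, rfl⟩ := bw_surj m w hw
      rw [bw_getElem? _ _ _ hj]
      by_contra hne
      have hf : v.testBit (m - j) = false := by
        cases h : v.testBit (m - j) with
        | false => rfl
        | true => exact absurd (by rw [h]) hne
      obtain ⟨r, hr⟩ := hpre
      have hlen : ((bw (m + 1) v).take j).length = j := by
        rw [List.length_take, bw_length]; omega
      have h1 : v2.testBit (m - j) = true := by
        have h2 := bw_getElem? m v2 j hj
        rw [← hr, List.append_assoc, List.getElem?_append_right (by omega), hlen,
          Nat.sub_self] at h2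
        simpa using h2.symm
      have h3 : ∀ i < j, v.testBit (m - i) = v2.testBit (m - i) := by
        intro i hi
        have h2 := bw_getElem? m v2 i (by omega)
        rw [← hr, List.append_assoc, List.getElem?_append_left (by omega),
          List.getElem?_take_of_lt hi, bw_getElem? m v i (by omega)] at h2
        exact Option.some.inj h2
      have hlt : v < v2 := by
        refine Nat.lt_of_testBit (m - j) hf h1 ?_
        intro p hp
        by_cases hpm : p ≤ m
        · have h4 := h3 (m - p) (by omega)
          rwa [show m - (m - p) = p by omega] at h4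
        · have e1 : v.testBit p = false :=
            Nat.testBit_lt_two_pow (hv.trans_le (Nat.pow_le_pow_right (by norm_num) (by omega)))
          have e2 : v2.testBit p = false :=
            Nat.testBit_lt_two_pow (hv2.trans_le (Nat.pow_le_pow_right (by norm_num) (by omega)))
          rw [e1, e2]
      have h5 := hlast v2 hlt hv2
      rw [hAw] at h5
      exact Bool.noConfusion h5
    · intro h
      refine ⟨bw (m + 1) v, bw_length _ _, ?_, hA⟩
      have h1 : (bw (m + 1) v).take j ++ [true] = (bw (m + 1) v).take (j + 1) := by
        rw [List.take_add_one, h]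
        rfl
      rw [h1]
      exact List.take_prefix _ _
  · rw [List.getLast?_eq_getElem?, bw_length, Nat.add_sub_cancel, bw_getElem? m v m (by omega),
      Nat.sub_self, ← hP, Nat.testBit_zero]
    simp

end Pool.Agent.W753.CS
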